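import Mathlib

/-!
Radial homeomorphisms of a real normed space: near the centre `c` they are the dilation by the
factor `b / a`, outside of the ball of radius `R` they are the identity, and they preserve every ray
from the centre.
-/

set_option autoImplicit false

namespace Pool.Agent.TH389.Radial

open Set

variable {E : Type*} [NormedAddCommGroup E] [NormedSpace ℝ E]

/-- the radial profile: piecewise linear through `(a, b)` and `(R, R)`, identity beyond `R` -/
noncomputable def psi (R a b r : ℝ) : ℝ :=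
  b + (min r R - a) * ((R - b) / (R - a)) + (r - min r R)

/-- the dilation factor at distance `r` -/
noncomputable def phi (R a b r : ℝ) : ℝ := psi R a b (max r a) / max r a

theorem phi_le {R a b r : ℝ} (h1 : a < R) (h : r ≤ a) : phi R a b r = b / a := by
  unfold phi psi
  rw [max_eq_right h, min_eq_left h1.le]
  simp

theorem phi_mid {R a b r : ℝ} (h : a ≤ r) (h' : r ≤ R) :
    phi R a b r = (b + (r - a) * ((R - b) / (R - a))) / r := by
  unfold phi psi
  rw [max_eq_left h, min_eq_left h']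
  simp

theorem phi_ge {R a b r : ℝ} (h0 : 0 < a) (h1 : a < R) (h : R ≤ r) : phi R a b r = 1 := by
  unfold phi psi
  have hr : 0 < r := by linarith
  rw [max_eq_left (h1.le.trans h), min_eq_right h]
  have : (R - a) * ((R - b) / (R - a)) = R - b := by
    rw [mul_div_cancel₀]
    linarith
  rw [this]
  rw [div_eq_one_iff_eq hr.ne']
  ring

theorem phi_pos {R a b : ℝ} (h0 : 0 < a) (h1 : a < R) (h2 : 0 < b) (h3 : b < R) (r : ℝ) :
    0 < phi R a b r := by
  rcases le_total r a with h | h
  · rw [phi_le h1 h]; positivity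
  rcases le_total r R with h' | h'
  · rw [phi_mid h h']
    have e1 : 0 ≤ r - a := by linarith
    have e2 : 0 < R - b := by linarith
    have e3 : 0 < R - a := by linarith
    have e4 : 0 < r := by linarith
    positivity
  · rw [phi_ge h0 h1 h']; norm_num

theorem phi_continuous {R a b : ℝ} (h0 : 0 < a) : Continuous (phi R a b) := by
  unfold phi psi
  refine Continuous.div (by fun_prop) (by fun_prop) fun r => ?_
  have : 0 < max r a := lt_max_of_lt_right h0
  exact this.ne'

/-- the profile with `a` and `b` exchanged is inverse -/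
theorem phi_inv {R a b r : ℝ} (h0 : 0 < a) (h1 : a < R) (h2 : 0 < b) (h3 : b < R) :
    phi R b a (phi R a b r * r) * phi R a b r = 1 := by
  rcases le_total r a with h | h
  · rw [phi_le h1 h]
    have : b / a * r ≤ b := by
      rw [div_mul_eq_mul_div, div_le_iff₀ h0]
      exact mul_le_mul_of_nonneg_left h h2.le
    rw [phi_le h3 this]
    field_simp
  rcases le_total r R with h' | h'
  · have hr0 : 0 < r := by linarith
    have e3 : 0 < R - a := by linarith
    have e2 : 0 < R - b := by linarith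
    have e1 : 0 ≤ r - a := by linarith
    set s := b + (r - a) * ((R - b) / (R - a)) with hs
    have hq : (r - a) * ((R - b) / (R - a)) ≤ R - b := by
      rw [← mul_div_assoc, div_le_iff₀ e3]
      nlinarith
    have hq0 : 0 ≤ (r - a) * ((R - b) / (R - a)) := by positivity
    have hs1 : b ≤ s := by linarith
    have hs2 : s ≤ R := by linarith
    have hs0 : 0 < s := by linarith
    rw [phi_mid h h', ← hs, div_mul_cancel₀ _ hr0.ne', phi_mid hs1 hs2]
    have : a + (s - b) * ((R - a) / (R - b)) = r := by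
      rw [hs]
      field_simp
      ring
    rw [this]
    field_simp
  · rw [phi_ge h0 h1 h', one_mul, mul_one, phi_ge h2 h3 h']

/-- `phi r * r ≤ max r R` -/
theorem phi_mul_le {R a b r : ℝ} (h0 : 0 < a) (h1 : a < R) (h2 : 0 < b) (h3 : b < R) :
    phi R a b r * r ≤ max r R := by
  rcases le_total r a with h | h
  · rw [phi_le h1 h]
    refine le_max_of_le_right ?_
    have : b / a * r ≤ b := by
      rw [div_mul_eq_mul_div, div_le_iff₀ h0]
      exact mul_le_mul_of_nonneg_left h h2.le
    linarith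
  rcases le_total r R with h' | h'
  · refine le_max_of_le_right ?_
    have hr0 : 0 < r := by linarith
    have e3 : 0 < R - a := by linarith
    have e2 : 0 < R - b := by linarith
    have e1 : 0 ≤ r - a := by linarith
    rw [phi_mid h h', div_mul_cancel₀ _ hr0.ne']
    have hq : (r - a) * ((R - b) / (R - a)) ≤ R - b := by
      rw [← mul_div_assoc, div_le_iff₀ e3]
      nlinarith
    linarith
  · rw [phi_ge h0 h1 h', one_mul]
    exact le_max_left _ _

/-- the radial map -/
noncomputable def radFun (c : E) (R a b : ℝ) (p : E) : E := c + phi R a b ‖p - c‖ • (p - c)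

theorem norm_radFun {R a b : ℝ} (h0 : 0 < a) (h1 : a < R) (h2 : 0 < b) (h3 : b < R) (c p : E) :
    ‖radFun c R a b p - c‖ = phi R a b ‖p - c‖ * ‖p - c‖ := by
  unfold radFun
  rw [add_sub_cancel_left, norm_smul, Real.norm_of_nonneg (phi_pos h0 h1 h2 h3 _).le]

theorem radFun_inv {R a b : ℝ} (h0 : 0 < a) (h1 : a < R) (h2 : 0 < b) (h3 : b < R) (c p : E) :
    radFun c R b a (radFun c R a b p) = p := by
  have h := norm_radFun h0 h1 h2 h3 c p
  have e : radFun c R a b p - c = phi R a b ‖p - c‖ • (p - c) := by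
    unfold radFun; rw [add_sub_cancel_left]
  have e' : radFun c R b a (radFun c R a b p) =
      c + phi R b a ‖radFun c R a b p - c‖ • (radFun c R a b p - c) := rfl
  rw [e', h, e, smul_smul, phi_inv h0 h1 h2 h3, one_smul]
  abel

theorem radFun_continuous {R a b : ℝ} (h0 : 0 < a) (c : E) : Continuous (radFun c R a b) := by
  unfold radFun
  have := phi_continuous (R := R) (a := a) (b := b) h0
  fun_prop

/-- the radial homeomorphism -/
noncomputable def rad (c : E) {R a b : ℝ} (h0 : 0 < a) (h1 : a < R) (h2 : 0 < b) (h3 : b < R) :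
    E ≃ₜ E where
  toFun := radFun c R a b
  invFun := radFun c R b a
  left_inv := radFun_inv h0 h1 h2 h3 c
  right_inv := radFun_inv h2 h3 h0 h1 c
  continuous_toFun := radFun_continuous h0 c
  continuous_invFun := radFun_continuous h2 c

theorem radFun_far {R a b : ℝ} (h0 : 0 < a) (h1 : a < R) {c p : E} (h : R ≤ ‖p - c‖) :
    radFun c R a b p = p := by
  unfold radFun
  rw [phi_ge h0 h1 h, one_smul]
  abel

theorem radFun_center (R a b : ℝ) (c : E) : radFun c R a b c = c := by
  unfold radFun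
  simp

theorem radFun_near {R a b : ℝ} (h1 : a < R) {c p : E} (h : ‖p - c‖ ≤ a) :
    radFun c R a b p = c + (b / a) • (p - c) := by
  unfold radFun
  rw [phi_le h1 h]

theorem mem_segment_iff_coe {c w p : E} :
    p ∈ segment ℝ c w ↔ ∃ t : ℝ, 0 ≤ t ∧ t ≤ 1 ∧ p = c + t • (w - c) := by
  rw [segment_eq_image']
  constructor
  · rintro ⟨t, ⟨h0, h1⟩, rfl⟩; exact ⟨t, h0, h1, rfl⟩
  · rintro ⟨t, h0, h1, rfl⟩; exact ⟨t, ⟨h0, h1⟩, rfl⟩

theorem radFun_mem_segment {R a b : ℝ} (h0 : 0 < a) (h1 : a < R) (h2 : 0 < b) (h3 : b < R)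
    {c w p : E} (hw : R ≤ ‖w - c‖) (hp : p ∈ segment ℝ c w) : radFun c R a b p ∈ segment ℝ c w := by
  obtain ⟨t, ht0, ht1, rfl⟩ := mem_segment_iff_coe.1 hp
  have hw0 : 0 < ‖w - c‖ := by linarith
  have e : c + t • (w - c) - c = t • (w - c) := by abel
  have en : ‖t • (w - c)‖ = t * ‖w - c‖ := by rw [norm_smul, Real.norm_of_nonneg ht0]
  have hphi := phi_pos h0 h1 h2 h3 (t * ‖w - c‖)
  refine mem_segment_iff_coe.2 ⟨phi R a b (t * ‖w - c‖) * t, by positivity, ?_, ?_⟩
  · have h := phi_mul_le (r := t * ‖w - c‖) h0 h1 h2 h3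
    have h' : max (t * ‖w - c‖) R ≤ ‖w - c‖ := by
      apply max_le _ hw
      nlinarith
    have h'' : phi R a b (t * ‖w - c‖) * t * ‖w - c‖ ≤ 1 * ‖w - c‖ := by
      rw [one_mul, mul_assoc]; exact h.trans h'
    exact le_of_mul_le_mul_right h'' hw0
  · unfold radFun
    rw [e, en, smul_smul]

theorem rad_segment {R a b : ℝ} (h0 : 0 < a) (h1 : a < R) (h2 : 0 < b) (h3 : b < R)
    {c w : E} (hw : R ≤ ‖w - c‖) : rad c h0 h1 h2 h3 '' segment ℝ c w = segment ℝ c w := by
  apply Subset.antisymm
  · rintro _ ⟨p, hp, rfl⟩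
    exact radFun_mem_segment h0 h1 h2 h3 hw hp
  · intro p hp
    refine ⟨radFun c R b a p, radFun_mem_segment h2 h3 h0 h1 hw hp, ?_⟩
    exact radFun_inv h2 h3 h0 h1 c p

theorem rad_far_set {R a b : ℝ} (h0 : 0 < a) (h1 : a < R) (h2 : 0 < b) (h3 : b < R)
    {c : E} {S : Set E} (hS : ∀ p ∈ S, R ≤ ‖p - c‖) : rad c h0 h1 h2 h3 '' S = S := by
  apply Subset.antisymm
  · rintro _ ⟨p, hp, rfl⟩
    have : rad c h0 h1 h2 h3 p = p := radFun_far h0 h1 (hS p hp)
    rw [this]; exact hp
  · intro p hp
    exact ⟨p, hp, radFun_far h0 h1 (hS p hp)⟩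

theorem rad_spur_mem {R a b : ℝ} (h0 : 0 < a) (h1 : a < R) (h2 : 0 < b) (h3 : b < R)
    {c u p : E} (hu : ‖u‖ = a) (hp : p ∈ segment ℝ c (c + u)) :
    radFun c R a b p ∈ segment ℝ c (c + (b / a) • u) := by
  obtain ⟨t, ht0, ht1, rfl⟩ := mem_segment_iff_coe.1 hp
  have e : c + t • (c + u - c) - c = t • u := by
    rw [add_sub_cancel_left, add_sub_cancel_left]
  have hn : ‖c + t • (c + u - c) - c‖ ≤ a := by
    rw [e, norm_smul, Real.norm_of_nonneg ht0, hu]
    nlinarith
  rw [radFun_near h1 hn, e]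
  refine mem_segment_iff_coe.2 ⟨t, ht0, ht1, ?_⟩
  rw [add_sub_cancel_left, smul_comm]

theorem rad_spur_end {R a b : ℝ} (h0 : 0 < a) (h1 : a < R) (h2 : 0 < b) (h3 : b < R)
    {c u : E} (hu : ‖u‖ = a) : rad c h0 h1 h2 h3 (c + u) = c + (b / a) • u := by
  have hn : ‖c + u - c‖ ≤ a := by rw [add_sub_cancel_left, hu]
  have := radFun_near (b := b) h1 hn
  rw [add_sub_cancel_left] at this
  exact this

theorem rad_spur {R a b : ℝ} (h0 : 0 < a) (h1 : a < R) (h2 : 0 < b) (h3 : b < R)
    {c u : E} (hu : ‖u‖ = a) :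
    rad c h0 h1 h2 h3 '' segment ℝ c (c + u) = segment ℝ c (c + (b / a) • u) := by
  apply Subset.antisymm
  · rintro _ ⟨p, hp, rfl⟩
    exact rad_spur_mem h0 h1 h2 h3 hu hp
  · intro p hp
    refine ⟨radFun c R b a p, ?_, radFun_inv h2 h3 h0 h1 c p⟩
    have hu' : ‖(b / a) • u‖ = b := by
      rw [norm_smul, Real.norm_of_nonneg (by positivity), hu]
      field_simp
    have := rad_spur_mem h2 h3 h0 h1 hu' hp
    rwa [smul_smul, show a / b * (b / a) = 1 by field_simp, one_smul] at this

end Pool.Agent.TH389.Radial
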