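import Pool.Agent.Helper337.PolygonProofC
import Pool.Agent.TH389.Radial

/-!
The homeomorphisms of the plane changing the size of the spurs of the first 14-gon.
-/

set_option autoImplicit false

namespace Pool.Agent.TH389.Spurs

open Set Pool.Agent.Helper337.PolygonPattern Pool.Agent.TH389.Radial

/-- the point `c` is far from the segment from `a` to `b` -/
def farTest (a b c : ℤ × ℤ) : Bool :=
  decide (c.1 < min a.1 b.1) || decide (max a.1 b.1 < c.1) ||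
  decide (c.2 < min a.2 b.2) || decide (max a.2 b.2 < c.2) ||
  (decide (|b.1 - a.1| + |b.2 - a.2| ≤ 3 * |orr a b c|) && decide (0 < |b.1 - a.1| + |b.2 - a.2|))

theorem seg_bounds {u v t : ℝ} (h0 : 0 ≤ t) (h1 : t ≤ 1) :
    min u v ≤ u + t * (v - u) ∧ u + t * (v - u) ≤ max u v := by
  constructor
  · rcases le_total u v with h | h
    · rw [min_eq_left h]; nlinarith
    · rw [min_eq_right h]; nlinarith
  · rcases le_total u v with h | h
    · rw [max_eq_right h]; nlinarith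
    · rw [max_eq_left h]; nlinarith

theorem norm_ge_fst (p q : Plane) : |p.1 - q.1| ≤ ‖p - q‖ := by
  have := norm_fst_le (p - q)
  simpa using this

theorem norm_ge_snd (p q : Plane) : |p.2 - q.2| ≤ ‖p - q‖ := by
  have := norm_snd_le (p - q)
  simpa using this

theorem far_of_test {a b c : ℤ × ℤ} (h : farTest a b c = true) {p : Plane}
    (hp : p ∈ segment ℝ (toR a) (toR b)) : 1 / 3 ≤ ‖p - toR c‖ := by
  obtain ⟨t, h0, h1, hx, hy⟩ := mem_segment_coords hp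
  have hbx := seg_bounds (u := (toR a).1) (v := (toR b).1) h0 h1
  have hby := seg_bounds (u := (toR a).2) (v := (toR b).2) h0 h1
  rw [← hx] at hbx
  rw [← hy] at hby
  have n1 : |p.1 - (c.1 : ℝ)| ≤ ‖p - toR c‖ := norm_ge_fst p (toR c)
  have n2 : |p.2 - (c.2 : ℝ)| ≤ ‖p - toR c‖ := norm_ge_snd p (toR c)
  simp only [toR] at hbx hby
  simp only [farTest, Bool.or_eq_true, Bool.and_eq_true, decide_eq_true_eq] at h
  rcases h with (((h | h) | h) | h) | h
  · have h' : (c.1 : ℝ) + 1 ≤ min (a.1 : ℝ) (b.1 : ℝ) := by exact_mod_cast h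
    have := le_abs_self (p.1 - (c.1 : ℝ))
    linarith
  · have h' : max (a.1 : ℝ) (b.1 : ℝ) + 1 ≤ (c.1 : ℝ) := by exact_mod_cast h
    have := neg_abs_le (p.1 - (c.1 : ℝ))
    linarith
  · have h' : (c.2 : ℝ) + 1 ≤ min (a.2 : ℝ) (b.2 : ℝ) := by exact_mod_cast h
    have := le_abs_self (p.2 - (c.2 : ℝ))
    linarith
  · have h' : max (a.2 : ℝ) (b.2 : ℝ) + 1 ≤ (c.2 : ℝ) := by exact_mod_cast h
    have := neg_abs_le (p.2 - (c.2 : ℝ))
    linarith
  · obtain ⟨h2, h3⟩ := h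
    have h2' : |(b.1 : ℝ) - a.1| + |(b.2 : ℝ) - a.2| ≤ 3 * |(orr a b c : ℝ)| := by exact_mod_cast h2
    have h3' : 0 < |(b.1 : ℝ) - a.1| + |(b.2 : ℝ) - a.2| := by exact_mod_cast h3
    have e : (orr a b c : ℝ) = ((b.1 : ℝ) - a.1) * (c.2 - p.2) - ((b.2 : ℝ) - a.2) * (c.1 - p.1) := by
      have hz := orR_self _ _ _ hp
      have hc := orR_toR a b c
      unfold orR at hz hc
      simp only [toR] at hz hc
      rw [← hc]
      linarith
    have e2 : |(orr a b c : ℝ)| ≤ (|(b.1 : ℝ) - a.1| + |(b.2 : ℝ) - a.2|) * ‖p - toR c‖ := by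
      rw [e]
      refine (abs_sub _ _).trans ?_
      rw [abs_mul, abs_mul, add_mul]
      rw [abs_sub_comm (c.2 : ℝ), abs_sub_comm (c.1 : ℝ)]
      exact add_le_add (mul_le_mul_of_nonneg_left n2 (abs_nonneg _))
        (mul_le_mul_of_nonneg_left n1 (abs_nonneg _))
    have h4 : (|(b.1 : ℝ) - a.1| + |(b.2 : ℝ) - a.2|) * (1 / 3) ≤
        (|(b.1 : ℝ) - a.1| + |(b.2 : ℝ) - a.2|) * ‖p - toR c‖ := by linarith
    exact le_of_mul_le_mul_left h4 h3'

theorem far_all : ∀ i j : ZMod 14, j ≠ i → j ≠ i + 1 → farTest (XZ i) (XZ (i + 1)) (XZ j) = true := by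
  decide +kernel

theorem far_edge {i j : ZMod 14} (h1 : j ≠ i) (h2 : j ≠ i + 1) {p : Plane} (hp : p ∈ edge xx i) :
    1 / 3 ≤ ‖p - xx j‖ := far_of_test (far_all i j h1 h2) hp

/-- the vertices are far from each other -/
theorem vert_test : ∀ i j : ZMod 14, i ≠ j → 1 ≤ max |(XZ i).1 - (XZ j).1| |(XZ i).2 - (XZ j).2| := by
  decide +kernel

theorem vert_far {i j : ZMod 14} (h : i ≠ j) : 1 ≤ ‖xx i - xx j‖ := by
  have h1 := vert_test i j h
  have n1 : |((XZ i).1 : ℝ) - (XZ j).1| ≤ ‖xx i - xx j‖ := norm_ge_fst (xx i) (xx j)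
  have n2 : |((XZ i).2 : ℝ) - (XZ j).2| ≤ ‖xx i - xx j‖ := norm_ge_snd (xx i) (xx j)
  have h2 : (1 : ℝ) ≤ max |((XZ i).1 : ℝ) - (XZ j).1| |((XZ i).2 : ℝ) - (XZ j).2| := by exact_mod_cast h1
  exact h2.trans (max_le n1 n2)

/-- the direction of the spur at the vertex `i` -/
def uu (i : ZMod 14) : Plane := (2 : ℝ) • xx i - xx (i - 1) - xx (i + 1)

/-- the same for integer points -/
def uz (i : ZMod 14) : ℤ × ℤ :=
  (2 * (XZ i).1 - (XZ (i - 1)).1 - (XZ (i + 1)).1, 2 * (XZ i).2 - (XZ (i - 1)).2 - (XZ (i + 1)).2)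

theorem uu_eq (i : ZMod 14) : uu i = toR (uz i) := by
  unfold uu uz xx toR
  apply Prod.ext <;> simp

theorem uz_test : ∀ i : ZMod 14, 1 ≤ max |(uz i).1| |(uz i).2| ∧ |(uz i).1| ≤ 300 ∧ |(uz i).2| ≤ 300 := by
  decide +kernel

theorem norm_toR (p : ℤ × ℤ) : ‖toR p‖ = ((max |p.1| |p.2| : ℤ) : ℝ) := by
  rw [Prod.norm_def]
  simp [toR]

theorem uu_norm (i : ZMod 14) : 1 ≤ ‖uu i‖ ∧ ‖uu i‖ ≤ 300 := by
  obtain ⟨h1, h2, h3⟩ := uz_test i
  rw [uu_eq, norm_toR]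
  constructor
  · exact_mod_cast h1
  · exact_mod_cast max_le h2 h3

/-- the spur of size `ε` at the vertex `i` -/
def sg (ε : ℝ) (i : ZMod 14) : Set Plane := segment ℝ (xx i) (xx i + ε • uu i)

theorem spur_far {ε : ℝ} (h0 : 0 < ε) (h1 : ε < 1 / 1000) {i j : ZMod 14} (h : i ≠ j) {p : Plane}
    (hp : p ∈ sg ε i) : 1 / 3 ≤ ‖p - xx j‖ := by
  obtain ⟨t, ht0, ht1, rfl⟩ := mem_segment_iff_coe.1 hp
  have hv := vert_far h
  have hu := uu_norm i
  rw [add_sub_cancel_left]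
  have e : xx i + t • ε • uu i - xx j = (xx i - xx j) + t • ε • uu i := by abel
  rw [e]
  have h2 : ‖t • ε • uu i‖ ≤ 300 / 1000 := by
    rw [norm_smul, norm_smul, Real.norm_of_nonneg ht0, Real.norm_of_nonneg h0.le]
    have : ε * ‖uu i‖ ≤ 1 / 1000 * 300 := mul_le_mul h1.le hu.2 (norm_nonneg _) (by norm_num)
    have h3 : 0 ≤ ε * ‖uu i‖ := by positivity
    nlinarith
  have h4 := norm_sub_le_norm_add (xx i - xx j) (t • ε • uu i)
  linarith [h4]

theorem succ_ne : ∀ j : ZMod 14, j + 1 ≠ j := by decide +kernel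

/-- one step: change the size of the spur at the vertex `j` -/
theorem step {ε₁ ε₂ : ℝ} (h1 : 0 < ε₁) (h1' : ε₁ < 1 / 1000) (h2 : 0 < ε₂) (h2' : ε₂ < 1 / 1000)
    (j : ZMod 14) : ∃ g : Plane ≃ₜ Plane, (∀ i, g '' edge xx i = edge xx i) ∧ (∀ i, g (xx i) = xx i) ∧
      (∀ ε, 0 < ε → ε < 1 / 1000 → ∀ k, k ≠ j → g '' sg ε k = sg ε k ∧
        g (xx k + ε • uu k) = xx k + ε • uu k) ∧
      g '' sg ε₁ j = sg ε₂ j ∧ g (xx j + ε₁ • uu j) = xx j + ε₂ • uu j := by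
  have hu := uu_norm j
  have hu0 : 0 < ‖uu j‖ := by linarith
  have a0 : 0 < ε₁ * ‖uu j‖ := by positivity
  have b0 : 0 < ε₂ * ‖uu j‖ := by positivity
  have a1 : ε₁ * ‖uu j‖ < 1 / 3 := by
    have : ε₁ * ‖uu j‖ ≤ 1 / 1000 * 300 := mul_le_mul h1'.le hu.2 (norm_nonneg _) (by norm_num)
    linarith
  have b1 : ε₂ * ‖uu j‖ < 1 / 3 := by
    have : ε₂ * ‖uu j‖ ≤ 1 / 1000 * 300 := mul_le_mul h2'.le hu.2 (norm_nonneg _) (by norm_num)
    linarith
  have hn : ‖ε₁ • uu j‖ = ε₁ * ‖uu j‖ := by rw [norm_smul, Real.norm_of_nonneg h1.le]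
  have hsm : (ε₂ * ‖uu j‖ / (ε₁ * ‖uu j‖)) • ε₁ • uu j = ε₂ • uu j := by
    rw [smul_smul]
    congr 1
    field_simp
  refine ⟨rad (xx j) a0 a1 b0 b1, ?_, ?_, ?_, ?_, ?_⟩
  · intro i
    by_cases hi : j = i
    · subst hi
      unfold edge
      refine rad_segment a0 a1 b0 b1 ?_
      linarith [vert_far (succ_ne j)]
    by_cases hi2 : j = i + 1
    · unfold edge
      rw [← hi2, segment_symm]
      refine rad_segment a0 a1 b0 b1 ?_
      linarith [vert_far (Ne.symm hi)]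
    · exact rad_far_set a0 a1 b0 b1 fun p hp => far_edge hi hi2 hp
  · intro i
    by_cases hi : i = j
    · rw [hi]; exact radFun_center _ _ _ _
    · exact radFun_far a0 a1 (by linarith [vert_far hi])
  · intro ε e0 e1 k hk
    refine ⟨rad_far_set a0 a1 b0 b1 fun p hp => spur_far e0 e1 hk hp, ?_⟩
    exact radFun_far a0 a1 (spur_far e0 e1 hk (right_mem_segment ℝ _ _))
  · unfold sg
    rw [rad_spur a0 a1 b0 b1 hn, hsm]
  · rw [rad_spur_end a0 a1 b0 b1 hn, hsm]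

/-- all steps together -/
theorem steps {ε₁ ε₂ : ℝ} (h1 : 0 < ε₁) (h1' : ε₁ < 1 / 1000) (h2 : 0 < ε₂) (h2' : ε₂ < 1 / 1000)
    (S : Finset (ZMod 14)) : ∃ g : Plane ≃ₜ Plane, (∀ i, g '' edge xx i = edge xx i) ∧
      (∀ i, g (xx i) = xx i) ∧
      (∀ k, g '' sg ε₁ k = sg (if k ∈ S then ε₂ else ε₁) k ∧
        g (xx k + ε₁ • uu k) = xx k + (if k ∈ S then ε₂ else ε₁) • uu k) := by
  induction S using Finset.induction_on with
  | empty =>
    refine ⟨Homeomorph.refl _, ?_, ?_, ?_⟩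
    · intro i; simp
    · intro i; simp
    · intro k; simp
  | insert j S hj ih =>
    obtain ⟨g, g1, g2, g3⟩ := ih
    obtain ⟨f, f1, f2, f3, f4, f5⟩ := step h1 h1' h2 h2' j
    have hcomp : ∀ T : Set Plane, (g.trans f) '' T = f '' (g '' T) := fun T => by
      rw [image_image]; rfl
    refine ⟨g.trans f, ?_, ?_, ?_⟩
    · intro i; rw [hcomp, g1, f1]
    · intro i
      show f (g (xx i)) = xx i
      rw [g2, f2]
    · intro k
      rw [hcomp]
      show _ ∧ f (g (xx k + ε₁ • uu k)) = _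
      rw [(g3 k).1, (g3 k).2]
      by_cases hk : k = j
      · subst hk
        rw [if_neg hj, if_pos (Finset.mem_insert_self _ _)]
        exact ⟨f4, f5⟩
      · have hiff : (k ∈ insert j S) ↔ k ∈ S := by simp [hk]
        simp only [hiff]
        split_ifs
        · exact f3 ε₂ h2 h2' k hk
        · exact f3 ε₁ h1 h1' k hk

/-- the homeomorphism changing the size of all spurs -/
theorem resize {ε₁ ε₂ : ℝ} (h1 : 0 < ε₁) (h1' : ε₁ < 1 / 1000) (h2 : 0 < ε₂) (h2' : ε₂ < 1 / 1000) :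
    ∃ g : Plane ≃ₜ Plane, (∀ i, g '' edge xx i = edge xx i) ∧
      (∀ i, g (xx i) = xx i) ∧
      (∀ k, g '' sg ε₁ k = sg ε₂ k ∧ g (xx k + ε₁ • uu k) = xx k + ε₂ • uu k) := by
  obtain ⟨g, g1, g2, g3⟩ := steps h1 h1' h2 h2' Finset.univ
  refine ⟨g, g1, g2, fun k => ?_⟩
  have := g3 k
  simpa using this

end Pool.Agent.TH389.Spurs
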